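import Pool.Agent.H562.NP.Smooth

/-!
# How many differences are needed for the inequality of Leth?

The problem considers the sets `A ⊆ [1, n]` which nearly contain no `(t, d, w)`-progression with
`w n < d ^ 2` and `d` a power of two, and asks whether their density is always smaller than
`(log n) ^ (-log log n)`. The library contains the negative answer. Here the powers of two are
replaced by an arbitrary set `D` of differences, and the threshold is found: the inequality fails,
for every `t ≥ 3`, for EVERY set `D` with `O((log x) ^ β)` elements in `[x, 2 x)`, `β < log 2`, and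
it is true for `t = 3` for some sets `D` with `O((log x) ^ β)` elements in `[x, 2 x)`, for every
`β > log 2`; the order of magnitude of the logarithm of the largest density is found.

Definitions used (in `Pool.Agent.H562.NP`): `Near A t d w`: `A` nearly contains a
`(t, d, w)`-progression; `Avoids D t n A`: `A ⊆ [1, n]` nearly contains no
`(t, d, w)`-progression with `d ∈ D` and `w n < d ^ 2`;
`Mult ω`: the integers `m 2 ^ k` with `1 ≤ m ≤ ω k`; `pw β k = ⌊(k + 1) ^ β⌋`.

Method. Lower bound: a multi-dimensional, scaled version of the theorem of Peres and Schlag on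
the dilations of sparse sets, for each of about `log log n` ranges of differences. Upper bound:
recursion over the same ranges.
-/

set_option autoImplicit false

open Filter Pool.Agent.H562.NP

/-- See the description of the file. -/
theorem Pool.Agent.Results.MP_0426f4_nt.DifferencesPerOctave.result :
    -- (1) lower bound for every `D` with `O((log x) ^ β)` elements in `[x, 2 x)`
    (∀ (β C ε : ℝ) (D : Set ℕ) (x₀ : ℕ), 0 ≤ β → 0 < ε →
      (∀ x, x₀ ≤ x → ((D ∩ Set.Ico x (2 * x)).ncard : ℝ) ≤ C * Real.log x ^ β) →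
      ∀ t, 3 ≤ t → ∃ n₀ : ℕ, ∀ n, n₀ ≤ n → ∃ A : Finset ℕ, Avoids D t n A ∧
        Real.exp (-((β / Real.log 2 + ε) * Real.log (Real.log n) ^ 2)) ≤ (A.card : ℝ) / n) ∧
    -- (2) the exponent is the best possible for `t = 3`
    (∀ β : ℝ, 0 < β → (∀ j, 2 ^ j ∈ Mult (pw β)) ∧
      (∃ C : ℝ, ∀ x : ℕ, 2 ≤ x →
        ((Mult (pw β) ∩ Set.Ico x (2 * x)).ncard : ℝ) ≤ C * Real.log x ^ β) ∧
      ∀ ε : ℝ, 0 < ε → ∃ n₀ : ℕ, ∀ n, n₀ ≤ n → ∀ A : Finset ℕ, Avoids (Mult (pw β)) 3 n A →
        (A.card : ℝ) / n ≤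
          Real.exp (-((β / Real.log 2 - ε) * Real.log (Real.log n) ^ 2))) ∧
    -- (3) the threshold for the inequality of the problem
    (∀ (β C : ℝ) (D : Set ℕ) (x₀ : ℕ), 0 ≤ β → β < Real.log 2 →
      (∀ x, x₀ ≤ x → ((D ∩ Set.Ico x (2 * x)).ncard : ℝ) ≤ C * Real.log x ^ β) →
      ∀ t, 3 ≤ t → ∃ n₀ : ℕ, ∀ n, n₀ ≤ n → ∃ A : Finset ℕ, Avoids D t n A ∧
        1 ≤ (A.card : ℝ) / n * Real.log n ^ Real.log (Real.log n)) ∧
    (∀ β : ℝ, Real.log 2 < β → ∃ n₀ : ℕ, ∀ n, n₀ ≤ n → ∀ A : Finset ℕ,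
      Avoids (Mult (pw β)) 3 n A →
        (A.card : ℝ) / n * Real.log n ^ Real.log (Real.log n) < 1) := by
  have hl2 : 0 < Real.log 2 := Real.log_pos (by norm_num)
  refine ⟨?_, ?_, ?_, ?_⟩
  · intro β C ε D x₀ hβ hε hD t ht
    exact lower3 β C ε hβ hε D x₀ hD t ht
  · intro β hβ
    refine ⟨fun j => two_pow_mem_Mult _ j (one_le_pw β hβ.le j),
      ⟨(3 / Real.log 2) ^ β, fun x hx => pw_count β hβ.le x hx⟩, fun ε hε => ?_⟩
    exact upper3 β ε hβ hε
  · intro β C D x₀ hβ0 hβ hD t ht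
    have hc : β / Real.log 2 < 1 := by rwa [div_lt_one hl2]
    obtain ⟨n₀, hn₀⟩ := lower3 β C (1 - β / Real.log 2) hβ0 (by linarith) D x₀ hD t ht
    refine ⟨max n₀ 3, fun n hn => ?_⟩
    obtain ⟨A, hA, hA2⟩ := hn₀ n (le_trans (le_max_left _ _) hn)
    exact ⟨A, hA, ge_one_of n (le_trans (le_max_right _ _) hn) _ _ (by linarith) hA2⟩
  · intro β hβ
    have hc : 1 < β / Real.log 2 := by rwa [one_lt_div hl2]
    obtain ⟨n₀, hn₀⟩ := upper3 β ((β / Real.log 2 - 1) / 2) (by linarith) (by linarith)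
    obtain ⟨n₁, hn₁⟩ := eventually_atTop.mp (tendsto_LL.eventually (eventually_gt_atTop 0))
    refine ⟨max n₀ (max n₁ 3), fun n hn A hA => ?_⟩
    refine lt_one_of n (le_trans (le_trans (le_max_right _ _) (le_max_right _ _)) hn)
      (hn₁ n (le_trans (le_trans (le_max_left _ _) (le_max_right _ _)) hn)) _ _ ?_
      (hn₀ n (le_trans (le_max_left _ _) hn) A hA)
    linarith
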