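import Pool.Agent.H562.NP.Smooth

/-!
# Four or more terms: the inequality of Leth fails for much denser sets of differences

The problem considers the sets `A ⊆ [1, n]` which nearly contain no `(t, d, w)`-progression with
`w n < d ^ 2` and `d` a power of two, and asks whether their density is always smaller than
`(log n) ^ (-log log n)`. The library contains the negative answer. Here the powers of two are
replaced by an arbitrary set `D` of differences: for `t ≥ 4` the inequality fails for every `D`
with at most `exp ((log log x) ^ 2 / 60)` elements in `[x, 2 x)`, for instance for the set of all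
integers composed of the primes of a fixed finite set.

Definitions used (in `Pool.Agent.H562.NP`): `Near A t d w`: `A` nearly contains a
`(t, d, w)`-progression; `Avoids D t n A`: `A ⊆ [1, n]` nearly contains no
`(t, d, w)`-progression with `d ∈ D` and `w n < d ^ 2`;
`Smooth P`: the positive integers whose prime divisors are all in `P`.

Method. A multi-dimensional, scaled version of the theorem of Peres and Schlag on the dilations of
sparse sets and Behrend's spheres on the torus, for each of about `log log n` ranges of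
differences.
-/

set_option autoImplicit false

open Filter Pool.Agent.H562.NP

/-- See the description of the file. -/
theorem Pool.Agent.Results.MP_0426f4_nt.LongerProgressions.result :
    (∀ (D : Set ℕ) (x₀ : ℕ),
      (∀ x, x₀ ≤ x → ((D ∩ Set.Ico x (2 * x)).ncard : ℝ) ≤
        Real.exp (Real.log (Real.log x) ^ 2 / 60)) →
      ∀ t, 4 ≤ t → ∃ n₀ : ℕ, ∀ n, n₀ ≤ n → ∃ A : Finset ℕ, Avoids D t n A ∧
        1 ≤ (A.card : ℝ) / n * Real.log n ^ Real.log (Real.log n)) ∧
    (∀ (P : Finset ℕ) (t : ℕ), 4 ≤ t → ∃ n₀ : ℕ, ∀ n, n₀ ≤ n → ∃ A : Finset ℕ,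
      Avoids (Smooth P) t n A ∧
        1 ≤ (A.card : ℝ) / n * Real.log n ^ Real.log (Real.log n)) := by
  refine ⟨?_, ?_⟩
  · intro D x₀ hD t ht
    obtain ⟨n₀, hn₀⟩ := lower4 D x₀ hD t ht
    refine ⟨max n₀ 3, fun n hn => ?_⟩
    obtain ⟨A, hA, hA2⟩ := hn₀ n (le_trans (le_max_left _ _) hn)
    exact ⟨A, hA, ge_one_of n (le_trans (le_max_right _ _) hn) _ _ (by norm_num) hA2⟩
  · intro P t ht
    obtain ⟨x₀, hx₀⟩ := smooth_bound P
    obtain ⟨n₀, hn₀⟩ := lower4 (Smooth P) x₀ hx₀ t ht
    refine ⟨max n₀ 3, fun n hn => ?_⟩
    obtain ⟨A, hA, hA2⟩ := hn₀ n (le_trans (le_max_left _ _) hn)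
    exact ⟨A, hA, ge_one_of n (le_trans (le_max_right _ _) hn) _ _ (by norm_num) hA2⟩
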