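import Pool.Agent.H562.NP.Smooth

/-!
# Powers of the logarithm: when are the sets of Leth's question so sparse?

The problem considers the sets `A ⊆ [1, n]` which nearly contain no `(t, d, w)`-progression with
`w n < d ^ 2` and `d` a power of two, and asks whether their density is always smaller than
`(log n) ^ (-log log n)`. The library contains the negative answer. Here the powers of two are
replaced by a set `D` of differences and the bound is weakened to a power of `1 / log n`. If `D`
has boundedly many elements in every `[x, 2 x)`, then the density can be at least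
`(log n) ^ (-C)`, for all `t ≥ 3`, with `C` depending only on `D`. But there are sets `D` which
contain the powers of two, whose number of elements in `[x, 2 x)` tends to infinity arbitrarily
slowly, and for which the density is smaller than every power of `1 / log n`, for all `t`.

Definitions used (in `Pool.Agent.H562.NP`): `Near A t d w`: `A` nearly contains a
`(t, d, w)`-progression; `Avoids D t n A`: `A ⊆ [1, n]` nearly contains no
`(t, d, w)`-progression with `d ∈ D` and `w n < d ^ 2`;
`Mult ω`: the integers `m 2 ^ k` with `1 ≤ m ≤ ω k`.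

Method. Lower bound: a multi-dimensional, scaled version of the theorem of Peres and Schlag on
the dilations of sparse sets, for each of about `log log n` ranges of differences. Upper bound:
recursion over the same ranges, with Szemerédi's theorem (from the library).
-/

set_option autoImplicit false

open Filter Pool.Agent.H562.NP

/-- See the description of the file. -/
theorem Pool.Agent.Results.MP_0426f4_nt.PowersOfLogarithm.result :
    (∀ (D : Set ℕ) (M x₀ : ℕ), (∀ x, x₀ ≤ x → (D ∩ Set.Ico x (2 * x)).ncard ≤ M) →
      ∃ C : ℝ, ∀ t, 3 ≤ t → ∃ n₀ : ℕ, ∀ n, n₀ ≤ n → ∃ A : Finset ℕ, Avoids D t n A ∧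
        Real.log n ^ (-C) ≤ (A.card : ℝ) / n) ∧
    (∀ ω : ℕ → ℕ, Monotone ω → 1 ≤ ω 0 → Tendsto ω atTop atTop →
      (∀ j, 2 ^ j ∈ Mult ω) ∧
      (∀ x, (Mult ω ∩ Set.Ico x (2 * x)).ncard ≤ ω (Nat.log 2 (2 * x))) ∧
      ∀ t, 3 ≤ t → ∀ K : ℝ, ∃ n₀ : ℕ, ∀ n, n₀ ≤ n → ∀ A : Finset ℕ, Avoids (Mult ω) t n A →
        (A.card : ℝ) / n ≤ Real.log n ^ (-K)) := by
  refine ⟨?_, ?_⟩
  · intro D M x₀ hD
    exact lower_bdd D M x₀ hD
  · intro ω hmono h0 hω
    exact ⟨fun j => two_pow_mem_Mult _ j (h0.trans (hmono (Nat.zero_le j))),
      fun x => Mult_count ω hmono x, fun t ht K => upper_weak ω hω t ht K⟩
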