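import Pool.Graph.R_pool_sql_team_seeded_63374d34.Results.MP_0426f4_nt.SharpOrder
import Pool.Agent.H669.NP.Fam

set_option autoImplicit false

/-!
# Sets without near arithmetic progressions: arbitrary width functions

In the problem the width `w` of the blocks and the difference `d = 2 ^ j` of a near progression
are related by `w / d < d / n`. Here the width is controlled by an arbitrary function: we require
`w < n exp (-Φ (log (n / d)))`; the problem is the case `Φ L = 2 L`. We determine the logarithm of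
the maximal density for all functions `Φ` and all `t ≥ 3`: it is `(log (dens t) + o(1)) K (log n)`,
where `K` is an (approximate) Abel function of `Φ`, which counts the number of the iterations of `Φ`
needed to reach `log n`. So the inequality of the problem, which is false for `Φ L = 2 L`, becomes
true at the widths `w / d < exp (-κ L / log L)`, `L = log (n / d)`, exactly if `κ` is smaller than
`log (1 / dens t) / 2` (larger than: false).
-/

namespace Pool.Agent.Results.MP_0426f4_nt.WidthFunctions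

open Filter Topology Pool.Agent.H669.NP

/-- `A` nearly contains a `(t,d,w)`-progression: for some `b` the set `A` meets the block
`[b + i d, b + i d + w]` for each `i = 1, ..., t-1`. -/
def NearlyContains (A : Finset ℕ) (t d w : ℕ) : Prop :=
  ∃ b : ℕ, ∀ i ∈ Finset.Icc 1 (t - 1), ∃ a ∈ A, b + i * d ≤ a ∧ a ≤ b + i * d + w

/-- `A ⊆ [1,n]` nearly contains no `(t,d,w)`-progression with a power of two `d ≤ n` and
`w < n exp (-Φ (log (n / d)))`. -/
def Avoids (Φ : ℝ → ℝ) (t n : ℕ) (A : Finset ℕ) : Prop :=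
  A ⊆ Finset.Icc 1 n ∧ ∀ j w : ℕ, 2 ^ j ≤ n →
    (w : ℝ) < n * Real.exp (-Φ (Real.log (n / 2 ^ j))) → ¬ NearlyContains A t (2 ^ j) w

/-- The maximum of `|A| / n` over these sets. -/
noncomputable def g (Φ : ℝ → ℝ) (t n : ℕ) : ℝ :=
  sSup {x : ℝ | ∃ A : Finset ℕ, Avoids Φ t n A ∧ x = A.card / n}

/-- The largest density of a set of integers without a progression of `t - 1` terms whose
difference is a power of two. -/
noncomputable def dens (t : ℕ) : ℝ :=
  if t = 3 then 1 / 3 else if Even t then ((t : ℝ) - 2) / ((t : ℝ) - 1)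
    else ((t : ℝ) - 3) / ((t : ℝ) - 2)

theorem dens_pos {t : ℕ} (ht : 3 ≤ t) : 0 < dens t := by
  have h1 : dens t = SharpOrder.dens t := rfl
  rw [h1, SharpOrder.dens_eq_rho ht]
  exact lt_of_lt_of_le (by norm_num) (ExactOrder.rho_ge ht)

theorem dens_lt {t : ℕ} (ht : 3 ≤ t) : dens t < 1 := by
  have h1 : dens t = SharpOrder.dens t := rfl
  rw [h1, SharpOrder.dens_eq_rho ht]
  exact ExactOrder.rho_lt_one ht

theorem avoids_empty (Φ : ℝ → ℝ) {t : ℕ} (ht : 3 ≤ t) (n : ℕ) : Avoids Φ t n ∅ := by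
  refine ⟨by simp, ?_⟩
  rintro j w _ _ ⟨b, hb⟩
  obtain ⟨a, ha, _⟩ := hb 1 (by rw [Finset.mem_Icc]; omega)
  simp at ha

theorem finite_set (Φ : ℝ → ℝ) (t n : ℕ) :
    {x : ℝ | ∃ A : Finset ℕ, Avoids Φ t n A ∧ x = A.card / n}.Finite := by
  apply Set.Finite.subset (((Finset.Icc 1 n).powerset.image
    (fun A : Finset ℕ => ((A.card : ℝ) / n))).finite_toSet)
  rintro x ⟨A, hA, rfl⟩
  rw [Finset.mem_coe, Finset.mem_image]
  exact ⟨A, Finset.mem_powerset.2 hA.1, rfl⟩

theorem isGreatest (Φ : ℝ → ℝ) {t : ℕ} (ht : 3 ≤ t) (n : ℕ) :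
    IsGreatest {x : ℝ | ∃ A : Finset ℕ, Avoids Φ t n A ∧ x = A.card / n} (g Φ t n) := by
  have hne : {x : ℝ | ∃ A : Finset ℕ, Avoids Φ t n A ∧ x = A.card / n}.Nonempty :=
    ⟨_, ∅, avoids_empty Φ ht n, rfl⟩
  exact ⟨hne.csSup_mem (finite_set Φ t n),
    fun x hx => le_csSup (finite_set Φ t n).bddAbove hx⟩

/-- the problem is the case `Φ L = 2 L` -/
theorem avoids_two {t n : ℕ} (ht : 3 ≤ t) (A : Finset ℕ) :
    Avoids (fun L => 2 * L) t n A ↔ A ⊆ Finset.Icc 1 n ∧
      ∀ j w : ℕ, w * n < (2 ^ j) ^ 2 → ¬ NearlyContains A t (2 ^ j) w := by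
  have hkey : ∀ j w : ℕ, 2 ^ j ≤ n →
      ((w : ℝ) < n * Real.exp (-(2 * Real.log (n / 2 ^ j))) ↔ w * n < (2 ^ j) ^ 2) := by
    intro j w hj
    have hn0 : 0 < n := lt_of_lt_of_le (by positivity) hj
    have hnR : (0 : ℝ) < n := by exact_mod_cast hn0
    have h1 : n * Real.exp (-(2 * Real.log ((n : ℝ) / 2 ^ j))) = (2 ^ j) ^ 2 / n := by
      rw [dep_eq hn0]
      have h2 := exp_dep (j := j) hn0
      have h3 : Real.exp (-(2 * dep n j)) = Real.exp (-dep n j) ^ 2 := by
        rw [← Real.exp_nat_mul]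
        congr 1
        push_cast
        ring
      rw [h3, ← h2]
      field_simp
    rw [h1, lt_div_iff₀ hnR]
    exact_mod_cast Iff.rfl
  constructor
  · rintro ⟨h1, h2⟩
    refine ⟨h1, fun j w hw hN => ?_⟩
    rcases le_or_gt (2 ^ j) n with hj | hj
    · exact h2 j w hj ((hkey j w hj).2 hw) hN
    · obtain ⟨b, hb⟩ := hN
      obtain ⟨a, ha, h3, -⟩ := hb 1 (by rw [Finset.mem_Icc]; omega)
      have := (Finset.mem_Icc.1 (h1 ha)).2
      omega
  · rintro ⟨h1, h2⟩
    exact ⟨h1, fun j w hj hw => h2 j w ((hkey j w hj).1 hw)⟩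

theorem log_top : Tendsto (fun n : ℕ => Real.log (n : ℝ)) atTop atTop :=
  Real.tendsto_log_atTop.comp tendsto_natCast_atTop_atTop

/-- lower bounds -/
theorem lower {Φ K : ℝ → ℝ} {L₀ : ℝ} (h : Abel Φ K L₀) {t : ℕ} (ht : 3 ≤ t) {r : ℕ} {ε : ℝ}
    (hr : 1 ≤ r) (hε : 0 < ε) (hε1 : 2 * ε < 1) :
    ∃ c : ℝ, 0 < c ∧ ∀ᶠ n : ℕ in atTop,
      c * (dens t * (1 - 1 / 2 ^ r) ^ 2) ^ (K (Real.log n) / (1 - 2 * ε)) ≤ g Φ t n := by
  obtain ⟨k, rfl⟩ : ∃ k : ℕ, t = k + 1 := ⟨t - 1, by omega⟩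
  obtain ⟨c, hc, hlow⟩ := lowerP h (k := k) (r := r) (ρ := dens (k + 1)) (ε := ε) (by omega)
    (dens_pos ht) (dens_lt ht).le hr hε hε1 (fun M => by
      obtain ⟨H, hH, hcard⟩ := (ExactOrder.r_isGreatest ht M).1
      refine ⟨H, hH.1, ?_, ?_⟩
      · intro x e h
        refine hH.2 x e (fun l hl => h l (by omega))
      · rw [← hcard]
        exact SharpOrder.r_low ht M)
  refine ⟨c, hc, ?_⟩
  filter_upwards [hlow, eventually_ge_atTop 1] with n ⟨A, hA1, hA2, hA3⟩ hn
  have hn0 : 0 < n := hn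
  have hnR : (0 : ℝ) < n := by exact_mod_cast hn0
  have hav : Avoids Φ (k + 1) n A := by
    refine ⟨hA1, fun j w hj hw hN => hA2 j w ?_ hN⟩
    rwa [dep_eq hn0] at hw
  have h1 := (isGreatest Φ ht n).2 ⟨A, hav, rfl⟩
  refine le_trans ?_ h1
  rw [le_div_iff₀ hnR]
  refine le_trans (le_of_eq ?_) hA3
  ring

/-- upper bounds -/
theorem upper {Φ K : ℝ → ℝ} {L₀ : ℝ} (h : Abel Φ K L₀) {t : ℕ} (ht : 3 ≤ t) {μ : ℕ} {τ ε η : ℝ}
    (hε : 0 < ε) (hη : 0 < η) (hτ : τ = (dens t + 4 / 2 ^ μ) * (1 + η)) (hτ1 : τ < 1) :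
    ∃ C : ℝ, 0 < C ∧ ∀ᶠ n : ℕ in atTop,
      g Φ t n ≤ C * τ ^ ((1 - ε) * K (Real.log n) / (1 + 2 * ε)) := by
  obtain ⟨k, rfl⟩ : ∃ k : ℕ, t = k + 1 := ⟨t - 1, by omega⟩
  have hρ0 := dens_pos ht
  have hHM : Pool.Agent.N945.NP.HM k (2 ^ μ) (ExactOrder.r (k + 1) (2 ^ μ)) := by
    intro H hH hno
    refine (ExactOrder.r_isGreatest ht (2 ^ μ)).2 ⟨H, ⟨hH, fun x e h => ?_⟩, rfl⟩
    rcases Nat.lt_or_ge (2 ^ e) (2 ^ μ) with he | he
    · exact hno x e he h
    · have := Finset.mem_range.1 (hH (h 1 (by omega)))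
      omega
  have hτ0 : 0 < τ := by
    rw [hτ]
    positivity
  obtain ⟨C, hC, hup⟩ := upperP h hHM hε hη (τ := τ) (by
    rw [hτ]
    apply mul_le_mul_of_nonneg_right _ (by linarith)
    rw [div_le_iff₀ (by positivity)]
    have h1 := SharpOrder.r_up ht (2 ^ μ)
    rw [SharpOrder.r_eq] at h1
    push_cast at h1
    have h2 : SharpOrder.dens (k + 1) = dens (k + 1) := rfl
    rw [h2] at h1
    have h3 : (dens (k + 1) + 4 / 2 ^ μ) * (2 : ℝ) ^ μ = dens (k + 1) * 2 ^ μ + 4 := by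
      field_simp
    rw [h3]
    exact h1) hτ0 hτ1
  refine ⟨C, hC, ?_⟩
  filter_upwards [hup, eventually_ge_atTop 1] with n hup hn
  have hn0 : 0 < n := hn
  have hnR : (0 : ℝ) < n := by exact_mod_cast hn0
  obtain ⟨A, hA, hgA⟩ := (isGreatest Φ ht n).1
  have h1 := hup A hA.1 (by
    rintro j w ⟨hj, hw⟩
    have h2 := hA.2 j w hj (by rwa [dep_eq hn0])
    unfold NearlyContains at h2
    rw [Nat.add_sub_cancel] at h2
    exact h2)
  rw [hgA, div_le_iff₀ hnR]
  refine le_trans h1 (le_of_eq ?_)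
  ring

theorem zero_seq : Tendsto (fun m : ℕ => 1 / ((m : ℝ) + 1)) atTop (𝓝 0) :=
  tendsto_one_div_add_atTop_nhds_zero_nat

theorem pow_seq : Tendsto (fun m : ℕ => (1 : ℝ) / 2 ^ m) atTop (𝓝 0) := by
  have h := tendsto_pow_atTop_nhds_zero_of_lt_one (r := (1 / 2 : ℝ)) (by norm_num) (by norm_num)
  refine h.congr fun m => ?_
  rw [one_div_pow]

/-- **The logarithm of the density.** -/
theorem main {Φ K : ℝ → ℝ} {L₀ : ℝ} (h : Abel Φ K L₀) {t : ℕ} (ht : 3 ≤ t) :
    (∀ᶠ n : ℕ in atTop, 0 < g Φ t n) ∧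
    Tendsto (fun n : ℕ => Real.log (g Φ t n) / K (Real.log n)) atTop
      (𝓝 (Real.log (dens t))) := by
  have hρ0 := dens_pos ht
  have hρ1 := dens_lt ht
  obtain ⟨ρ, hρ⟩ : ∃ ρ, ρ = dens t := ⟨_, rfl⟩
  have hK : Tendsto (fun n : ℕ => K (Real.log n)) atTop atTop := h.top.comp log_top
  have hpos : ∀ᶠ n : ℕ in atTop, 0 < g Φ t n := by
    obtain ⟨c, hc, hlow⟩ := lower h ht (r := 1) (ε := 1 / 4) le_rfl (by norm_num) (by norm_num)
    filter_upwards [hlow] with n hn
    refine lt_of_lt_of_le ?_ hn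
    have : (0 : ℝ) < dens t * (1 - 1 / 2 ^ 1) ^ 2 := by
      have : (0 : ℝ) < (1 - 1 / 2 ^ 1) ^ 2 := by norm_num
      positivity
    positivity
  refine ⟨hpos, ?_⟩
  rw [← hρ] at hρ0 hρ1 ⊢
  have hconst : ∀ c : ℝ, Tendsto (fun n : ℕ => c / K (Real.log n)) atTop (𝓝 0) :=
    fun c => tendsto_const_nhds.div_atTop hK
  rw [tendsto_order]
  constructor
  · intro a ha
    have h1 : Tendsto (fun m : ℕ => Real.log (ρ * (1 - 1 / 2 ^ m) ^ 2) /
        (1 - 2 * (1 / ((m : ℝ) + 1)))) atTop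
        (𝓝 (Real.log (ρ * (1 - 0) ^ 2) / (1 - 2 * 0))) := by
      apply Tendsto.div
      · apply Tendsto.log
        · exact ((tendsto_const_nhds.sub pow_seq).pow 2).const_mul ρ
        · rw [sub_zero, one_pow, mul_one]
          exact hρ0.ne'
      · exact tendsto_const_nhds.sub (zero_seq.const_mul 2)
      · norm_num
    rw [sub_zero, one_pow, mul_one, mul_zero, sub_zero, div_one] at h1
    obtain ⟨m, hm, hm3⟩ := ((h1.eventually (lt_mem_nhds ha)).and (eventually_ge_atTop 3)).exists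
    have hmR : (3 : ℝ) ≤ m := by exact_mod_cast hm3
    have hε : (0 : ℝ) < 1 / ((m : ℝ) + 1) := by positivity
    have hε1 : 2 * (1 / ((m : ℝ) + 1)) < 1 := by
      rw [mul_one_div, div_lt_one (by linarith)]
      linarith
    obtain ⟨c, hc, hlow⟩ := lower h ht (r := m) (ε := 1 / ((m : ℝ) + 1)) (by omega) hε hε1
    rw [← hρ] at hlow
    obtain ⟨σ, hσ⟩ : ∃ σ : ℝ, σ = ρ * (1 - 1 / 2 ^ m) ^ 2 := ⟨_, rfl⟩
    have hσ0 : 0 < σ := by
      rw [hσ]
      have h2 : (1 : ℝ) / 2 ^ m < 1 := by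
        rw [div_lt_one (by positivity)]
        exact one_lt_pow₀ (by norm_num) (by omega)
      have : (0 : ℝ) < 1 - 1 / 2 ^ m := by linarith
      positivity
    rw [← hσ] at hm hlow
    obtain ⟨δ, hδ⟩ : ∃ δ : ℝ, δ = 1 - 2 * (1 / ((m : ℝ) + 1)) := ⟨_, rfl⟩
    rw [← hδ] at hm hlow
    have h3 := (hconst (Real.log c)).add (tendsto_const_nhds (x := Real.log σ / δ) (f := atTop))
    rw [zero_add] at h3
    filter_upwards [hlow, hK.eventually_gt_atTop 0, h3.eventually (lt_mem_nhds hm)] with n h4 h5 h6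
    have h7 : Real.log (c * σ ^ (K (Real.log n) / δ)) ≤ Real.log (g Φ t n) :=
      Real.log_le_log (by positivity) h4
    rw [Real.log_mul hc.ne' (by positivity), Real.log_rpow hσ0] at h7
    refine lt_of_lt_of_le h6 ?_
    rw [le_div_iff₀ h5, add_mul, div_mul_cancel₀ _ h5.ne']
    refine le_trans (le_of_eq ?_) h7
    ring
  · intro b hb
    have h1 : Tendsto (fun m : ℕ => Real.log ((ρ + 4 * (1 / 2 ^ m)) * (1 + 1 / ((m : ℝ) + 1))) *
        (1 - 1 / ((m : ℝ) + 1)) / (1 + 2 * (1 / ((m : ℝ) + 1)))) atTop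
        (𝓝 (Real.log ((ρ + 4 * 0) * (1 + 0)) * (1 - 0) / (1 + 2 * 0))) := by
      apply Tendsto.div
      · apply Tendsto.mul
        · apply Tendsto.log
          · exact (tendsto_const_nhds.add (pow_seq.const_mul 4)).mul
              (tendsto_const_nhds.add zero_seq)
          · rw [mul_zero, add_zero, add_zero, mul_one]
            exact hρ0.ne'
        · exact tendsto_const_nhds.sub zero_seq
      · exact tendsto_const_nhds.add (zero_seq.const_mul 2)
      · norm_num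
    rw [mul_zero, add_zero, add_zero, mul_one, sub_zero, mul_one, mul_zero, add_zero,
      div_one] at h1
    have h2 : Tendsto (fun m : ℕ => (ρ + 4 * (1 / 2 ^ m)) * (1 + 1 / ((m : ℝ) + 1))) atTop
        (𝓝 ((ρ + 4 * 0) * (1 + 0))) :=
      (tendsto_const_nhds.add (pow_seq.const_mul 4)).mul (tendsto_const_nhds.add zero_seq)
    rw [mul_zero, add_zero, add_zero, mul_one] at h2
    obtain ⟨m, hm, hm1⟩ := ((h1.eventually (gt_mem_nhds hb)).and
      (h2.eventually (gt_mem_nhds hρ1))).exists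
    obtain ⟨τ, hτ⟩ : ∃ τ : ℝ, τ = (ρ + 4 * (1 / 2 ^ m)) * (1 + 1 / ((m : ℝ) + 1)) := ⟨_, rfl⟩
    rw [← hτ] at hm hm1
    have hε : (0 : ℝ) < 1 / ((m : ℝ) + 1) := by positivity
    have hτ0 : 0 < τ := by
      rw [hτ]
      positivity
    obtain ⟨C, hC, hup⟩ := upper h ht (μ := m) (τ := τ) (ε := 1 / ((m : ℝ) + 1))
      (η := 1 / ((m : ℝ) + 1)) hε hε (by rw [hτ, ← hρ, mul_one_div]) hm1
    obtain ⟨e, he⟩ : ∃ e : ℝ, e = 1 / ((m : ℝ) + 1) := ⟨_, rfl⟩
    rw [← he] at hm hup hε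
    have h3 := (hconst (Real.log C)).add
      (tendsto_const_nhds (x := Real.log τ * (1 - e) / (1 + 2 * e)) (f := atTop))
    rw [zero_add] at h3
    filter_upwards [hup, hK.eventually_gt_atTop 0, h3.eventually (gt_mem_nhds hm), hpos]
      with n h4 h5 h6 h8
    have h7 := Real.log_le_log h8 h4
    rw [Real.log_mul hC.ne' (by positivity), Real.log_rpow hτ0] at h7
    refine lt_of_le_of_lt ?_ h6
    rw [div_le_iff₀ h5, add_mul, div_mul_cancel₀ _ h5.ne']
    refine le_trans h7 (le_of_eq ?_)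
    ring

/-- the logarithm of the quantity in the inequality of the problem -/
theorem log_leth {x y : ℝ} (hx : 0 < x) (hy : 0 < y) :
    Real.log (x * y ^ Real.log y) = Real.log x + Real.log y ^ 2 := by
  rw [Real.log_mul hx.ne' (by positivity), Real.log_rpow hy]
  ring

/-- many iterations: the inequality is true -/
theorem leth_true {Φ K : ℝ → ℝ} {L₀ : ℝ} (h : Abel Φ K L₀) {t : ℕ} (ht : 3 ≤ t) {c : ℝ}
    (hc : 1 < c * -Real.log (dens t)) (hK : ∀ᶠ L in atTop, c * Real.log L ^ 2 ≤ K L) :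
    ∀ᶠ n : ℕ in atTop, g Φ t n * Real.log n ^ Real.log (Real.log n) < 1 := by
  obtain ⟨hpos, hlim⟩ := main h ht
  have hl : Real.log (dens t) < 0 := Real.log_neg (dens_pos ht) (dens_lt ht)
  have hc0 : 0 < c := by
    by_contra hcon
    push Not at hcon
    nlinarith
  have h1 : Real.log (dens t) < -(1 / c) := by
    rw [lt_neg, div_lt_iff₀ hc0]
    linarith
  have hloglog : Tendsto (fun n : ℕ => Real.log (Real.log (n : ℝ))) atTop atTop :=
    Real.tendsto_log_atTop.comp log_top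
  filter_upwards [hpos, hlim.eventually (gt_mem_nhds h1), log_top.eventually hK,
    log_top.eventually_gt_atTop 0, hloglog.eventually_gt_atTop 0] with n h2 h3 h4 h5 h6
  have h7 : 0 < K (Real.log n) := lt_of_lt_of_le (by positivity) h4
  rw [div_lt_iff₀ h7] at h3
  have h8 : Real.log (g Φ t n * Real.log n ^ Real.log (Real.log n)) < 0 := by
    rw [log_leth h2 h5]
    have h9 : Real.log (Real.log n) ^ 2 ≤ 1 / c * K (Real.log n) := by
      rw [one_div, inv_mul_eq_div, le_div_iff₀ hc0]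
      linarith
    linarith
  have h9 : 0 < g Φ t n * Real.log n ^ Real.log (Real.log n) := by positivity
  exact (Real.log_neg_iff h9).1 h8

/-- few iterations: the inequality is false -/
theorem leth_false {Φ K : ℝ → ℝ} {L₀ : ℝ} (h : Abel Φ K L₀) {t : ℕ} (ht : 3 ≤ t) {c : ℝ}
    (hc : c * -Real.log (dens t) < 1) (hK : ∀ᶠ L in atTop, K L ≤ c * Real.log L ^ 2) :
    Tendsto (fun n : ℕ => g Φ t n * Real.log n ^ Real.log (Real.log n)) atTop atTop := by
  obtain ⟨hpos, hlim⟩ := main h ht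
  have hl : Real.log (dens t) < 0 := Real.log_neg (dens_pos ht) (dens_lt ht)
  have hloglog : Tendsto (fun n : ℕ => Real.log (Real.log (n : ℝ))) atTop atTop :=
    Real.tendsto_log_atTop.comp log_top
  have hKtop : Tendsto (fun n : ℕ => K (Real.log n)) atTop atTop := h.top.comp log_top
  have hc0 : 0 ≤ c := by
    by_contra hcon
    push Not at hcon
    obtain ⟨n, h1, h2, h3⟩ := ((log_top.eventually hK).and
      ((hKtop.eventually_gt_atTop 0).and (hloglog.eventually_gt_atTop 0))).exists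
    have : 0 < Real.log (Real.log (n : ℝ)) ^ 2 := by positivity
    nlinarith
  -- a slope between
  obtain ⟨s, hs1, hs2⟩ : ∃ s : ℝ, s < Real.log (dens t) ∧ c * -s < 1 := by
    obtain ⟨δ, hδ⟩ : ∃ δ : ℝ, δ = (1 - c * -Real.log (dens t)) / (2 * (c + 1)) := ⟨_, rfl⟩
    have hδ0 : 0 < δ := by
      rw [hδ]
      apply div_pos (by linarith) (by linarith)
    refine ⟨Real.log (dens t) - δ, by linarith, ?_⟩
    have h1 : (2 * (c + 1)) * δ = 1 - c * -Real.log (dens t) := by
      rw [hδ]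
      field_simp
    nlinarith
  have h0 : Tendsto (fun n : ℕ => (1 - c * -s) * Real.log (Real.log (n : ℝ)) ^ 2) atTop atTop := by
    apply Tendsto.const_mul_atTop (by linarith)
    exact (tendsto_pow_atTop two_ne_zero).comp hloglog
  have h1 : Tendsto (fun n : ℕ => Real.log (g Φ t n * Real.log n ^ Real.log (Real.log n))) atTop
      atTop := by
    refine tendsto_atTop_mono' atTop ?_ h0
    filter_upwards [hpos, hlim.eventually (lt_mem_nhds hs1), log_top.eventually hK,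
      log_top.eventually_gt_atTop 0, hKtop.eventually_gt_atTop 0] with n h2 h3 h4 h5 h6
    rw [log_leth h2 h5]
    rw [lt_div_iff₀ h6] at h3
    have h7 : s ≤ 0 := by linarith
    have h8 : s * (c * Real.log (Real.log n) ^ 2) ≤ s * K (Real.log n) :=
      mul_le_mul_of_nonpos_left h4 h7
    nlinarith
  have h2 := Real.tendsto_exp_atTop.comp h1
  refine h2.congr' ?_
  filter_upwards [hpos, log_top.eventually_gt_atTop 0] with n h3 h4
  simp only [Function.comp]
  exact Real.exp_log (by positivity)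

/-- **Near arithmetic progressions with arbitrary width functions.** -/
theorem result :
    -- (0) the problem is the case `Φ L = 2 L`, and `g` is a maximum
    (∀ t n : ℕ, 3 ≤ t → ∀ A : Finset ℕ, (Avoids (fun L => 2 * L) t n A ↔ A ⊆ Finset.Icc 1 n ∧
      ∀ j w : ℕ, w * n < (2 ^ j) ^ 2 → ¬ NearlyContains A t (2 ^ j) w)) ∧
    (∀ (Φ : ℝ → ℝ) (t n : ℕ), 3 ≤ t →
      IsGreatest {x : ℝ | ∃ A : Finset ℕ, Avoids Φ t n A ∧ x = A.card / n} (g Φ t n)) ∧
    -- (1) the logarithm of the density for all width functions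
    (∀ (Φ K : ℝ → ℝ) (L₀ : ℝ), Abel Φ K L₀ → ∀ t : ℕ, 3 ≤ t →
      Tendsto (fun n : ℕ => Real.log (g Φ t n) / K (Real.log n)) atTop
        (𝓝 (Real.log (dens t)))) ∧
    -- (2) the inequality of the problem
    (∀ (Φ K : ℝ → ℝ) (L₀ : ℝ), Abel Φ K L₀ → ∀ t : ℕ, 3 ≤ t → ∀ c : ℝ,
      (1 < c * -Real.log (dens t) → (∀ᶠ L in atTop, c * Real.log L ^ 2 ≤ K L) →
        ∀ᶠ n : ℕ in atTop, g Φ t n * Real.log n ^ Real.log (Real.log n) < 1) ∧
      (c * -Real.log (dens t) < 1 → (∀ᶠ L in atTop, K L ≤ c * Real.log L ^ 2) →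
        Tendsto (fun n : ℕ => g Φ t n * Real.log n ^ Real.log (Real.log n)) atTop atTop)) ∧
    -- (3) the threshold: `w / d < exp (-κ L / log L)`, `L = log (n / d)`
    (∀ κ : ℝ, 0 < κ → ∀ t : ℕ, 3 ≤ t →
      Tendsto (fun n : ℕ => Real.log (g (fun L => L + κ * L / Real.log L) t n) /
        Real.log (Real.log n) ^ 2) atTop (𝓝 (Real.log (dens t) / (2 * κ))) ∧
      (κ < -Real.log (dens t) / 2 → ∀ᶠ n : ℕ in atTop,
        g (fun L => L + κ * L / Real.log L) t n * Real.log n ^ Real.log (Real.log n) < 1) ∧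
      (-Real.log (dens t) / 2 < κ → Tendsto (fun n : ℕ =>
        g (fun L => L + κ * L / Real.log L) t n * Real.log n ^ Real.log (Real.log n))
          atTop atTop)) ∧
    -- (4) `w / d < (d / n) ^ a`
    (∀ a : ℝ, 0 < a → ∀ t : ℕ, 3 ≤ t →
      Tendsto (fun n : ℕ => Real.log (g (fun L => (1 + a) * L) t n) / Real.log (Real.log n)) atTop
        (𝓝 (Real.log (dens t) / Real.log (1 + a)))) ∧
    -- (5) `w / d < exp (-c L ^ θ)`, `L = log (n / d)`
    (∀ θ c : ℝ, 0 < θ → θ < 1 → 0 < c → ∀ t : ℕ, 3 ≤ t →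
      Tendsto (fun n : ℕ => Real.log (g (fun L => L + c * L ^ θ) t n) /
        Real.log n ^ (1 - θ)) atTop (𝓝 (Real.log (dens t) / (c * (1 - θ))))) := by
  refine ⟨fun t n ht A => avoids_two ht A, fun Φ t n ht => isGreatest Φ ht n,
    fun Φ K L₀ h t ht => (main h ht).2,
    fun Φ K L₀ h t ht c => ⟨fun hc hK => leth_true h ht hc hK, fun hc hK => leth_false h ht hc hK⟩,
    fun κ hκ t ht => ⟨?_, fun h => ?_, fun h => ?_⟩, fun a ha t ht => ?_,
    fun θ c hθ0 hθ1 hc t ht => ?_⟩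
  · have h1 := ((main (abel_thr hκ) ht).2).div_const (2 * κ)
    refine h1.congr' ?_
    have hloglog : Tendsto (fun n : ℕ => Real.log (Real.log (n : ℝ))) atTop atTop :=
      Real.tendsto_log_atTop.comp log_top
    filter_upwards [hloglog.eventually_gt_atTop 0] with n hn
    field_simp
  · refine leth_true (abel_thr hκ) ht (c := 1 / (2 * κ)) ?_ (Eventually.of_forall fun L => ?_)
    · rw [one_div, inv_mul_eq_div, lt_div_iff₀ (by positivity)]
      linarith
    · rw [one_div, inv_mul_eq_div]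
  · refine leth_false (abel_thr hκ) ht (c := 1 / (2 * κ)) ?_ (Eventually.of_forall fun L => ?_)
    · rw [one_div, inv_mul_eq_div, div_lt_iff₀ (by positivity)]
      linarith
    · rw [one_div, inv_mul_eq_div]
  · have hl : 0 < Real.log (1 + a) := Real.log_pos (by linarith)
    have h1 := ((main (abel_mul ha) ht).2).div_const (Real.log (1 + a))
    refine h1.congr' ?_
    have hloglog : Tendsto (fun n : ℕ => Real.log (Real.log (n : ℝ))) atTop atTop :=
      Real.tendsto_log_atTop.comp log_top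
    filter_upwards [hloglog.eventually_gt_atTop 0] with n hn
    field_simp
  · have hcs : 0 < c * (1 - θ) := mul_pos hc (by linarith)
    have h1 := ((main (abel_pow hθ0 hθ1 hc) ht).2).div_const (c * (1 - θ))
    refine h1.congr' ?_
    filter_upwards [log_top.eventually_gt_atTop 0] with n hn
    have h2 : 0 < Real.log (n : ℝ) ^ (1 - θ) := Real.rpow_pos_of_pos hn _
    have h3 : (1 - θ) ≠ 0 := (by linarith : (0 : ℝ) < 1 - θ).ne'
    field_simp

end Pool.Agent.Results.MP_0426f4_nt.WidthFunctions
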